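import Mathlib
import Pool.Agent.Helper96.SMU.Final

/-!
# The MLE of a scale mixture of uniforms at the origin

The definitions are in `Pool/Agent/Helper96/SMU/Defs.lean`.
-/

set_option autoImplicit false
open MeasureTheory Filter Topology
open Pool.Agent.Helper96.SMU

namespace Pool.Agent.Results.MP_a4ac49_pr.OriginRateFails

/-- Let `d ≥ 2` and let `a n = o((log n)^d)`.  There is a mixing distribution `G₀` with
`f₀(0) = 1`, where `f₀ = f_{G₀}`, such that the value at the origin of the maximum likelihood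
estimator exceeds `M (log n)^(d-1)`, for every `M`, and also exceeds `a n`, for infinitely many
sample sizes `n` with probability at least `1 - ε`, for every `ε > 0`. -/
theorem result (d : ℕ) (hd : 2 ≤ d) (a : ℕ → ℝ)
    (ha : Tendsto (fun n : ℕ => a n / Real.log n ^ d) atTop (𝓝 0)) :
    ∃ G₀ : Measure (Fin d → ℝ), IsMixing G₀ ∧ IsProbabilityMeasure (law G₀) ∧ atOrigin G₀ = 1 ∧
      (∀ M : ℝ, ExceedsOften G₀ (fun n => M * Real.log n ^ (d - 1))) ∧ ExceedsOften G₀ a := by
  obtain ⟨G₀, h1, h2, h3, h4⟩ := main hd ha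
  exact ⟨G₀, h1, ⟨law_univ h1⟩, h2, h3, h4⟩

end Pool.Agent.Results.MP_a4ac49_pr.OriginRateFails
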